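import Pool.Agent.Helper27.EPP

/-!
# Non-primitive weird numbers and the largest prime factor

If `w` is a non-primitive weird number with largest prime factor `P`, then `w / P` is weird unless
some odd prime `q < P` with `w / q` weird satisfies `σ(P^a) < σ(q^c)`, where `P^a` and `q^c` are the
exact powers of `P` and `q` dividing `w`.
-/

open Finset ArithmeticFunction
open scoped ArithmeticFunction.sigma

namespace Pool.Agent.Results.MP_4efad7_nt.ExceptionalPrimePower

/-- The main theorem. -/
theorem result {w P : ℕ} (hw : Nat.Weird w) (hP : P.Prime) (hPw : P ∣ w)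
    (hmax : ∀ q : ℕ, q.Prime → q ∣ w → q ≤ P) (hnp : ∃ v : ℕ, v ∣ w ∧ v < w ∧ Nat.Weird v) :
    Nat.Weird (w / P) ∨
      ∃ q : ℕ, q.Prime ∧ q ≠ 2 ∧ q < P ∧ q ∣ w ∧ Nat.Weird (w / q) ∧
        σ 1 (P ^ w.factorization P) < σ 1 (q ^ w.factorization q) :=
  Pool.Agent.Helper27.EPP.main hw hP hPw hmax hnp

end Pool.Agent.Results.MP_4efad7_nt.ExceptionalPrimePower
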